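import Mathlib
import Pool.Agent.H5.BCH

namespace Pool.Agent.Results.MP_c7d842_co.Code

open Finset Pointwise Pool.Agent.H5.BCH

/-- A lattice point seen in real space. -/
def cast {ι : Type} (z : ι → ℤ) : ι → ℝ := fun i => (z i : ℝ)

/-- The lattice polytope spanned by a finite set of lattice points. -/
def poly {ι : Type} (V : Finset (ι → ℤ)) : Set (ι → ℝ) := convexHull ℝ (cast '' (V : Set (ι → ℤ)))

/-- `P` has degree `s`: the least `k ≥ 1` such that `k P` has an interior lattice point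
is `d + 1 - s`. -/
def HasDegree {ι : Type} [Fintype ι] (P : Set (ι → ℝ)) (s : ℕ) : Prop :=
  s ≤ Fintype.card ι ∧
  IsLeast {k : ℕ | 1 ≤ k ∧ ∃ z : ι → ℤ, cast z ∈ interior ((k : ℝ) • P)} (Fintype.card ι + 1 - s)

/-- The points `e₀ = 0, e₁, …, e_k` of `ℝ^k`. -/
def corner (k : ℕ) (j : Fin (k + 1)) : Fin k → ℝ := fun s => if j = s.succ then 1 else 0

/-- The Cayley polytope of `k + 1` lattice polytopes in `ℝ^m`, inside `ℝ^m × ℝ^k`. -/
def cayley {m k : ℕ} (Q : Fin (k + 1) → Finset (Fin m → ℤ)) : Set (Fin m ⊕ Fin k → ℝ) :=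
  convexHull ℝ (⋃ j, (fun p => Sum.elim p (corner k j)) '' poly (Q j))

/-- `P` is lattice equivalent to a Cayley polytope of `k + 1` (nonempty) lattice polytopes. -/
def IsCayley {ι : Type} [Fintype ι] [DecidableEq ι] (P : Set (ι → ℝ)) (k : ℕ) : Prop :=
  ∃ (m : ℕ) (Q : Fin (k + 1) → Finset (Fin m → ℤ)) (M : Matrix (Fin m ⊕ Fin k) ι ℤ)
    (N : Matrix ι (Fin m ⊕ Fin k) ℤ) (t : Fin m ⊕ Fin k → ℤ),
    (∀ j, (Q j).Nonempty) ∧ M * N = 1 ∧ N * M = 1 ∧
    (fun x r => ∑ i, (M r i : ℝ) * x i + t r) '' P = cayley Q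

abbrev I := Fin 14 ⊕ Fin 112

def pos : Option I → ℕ
  | none => 126
  | some (Sum.inl j) => 112 + j
  | some (Sum.inr i) => i

def vert : Option I → I → ℤ
  | none => 0
  | some (Sum.inl j) => Sum.elim (fun j' => if j = j' then 2 else 0) (fun i => -(g j i : ℤ))
  | some (Sum.inr i) => Sum.elim 0 (fun i' => if i = i' then 1 else 0)

def V : Finset (I → ℤ) := univ.image vert

def mu : I → (I → ℝ) →ₗ[ℝ] ℝ
  | Sum.inl j => LinearMap.proj (Sum.inl j)
  | Sum.inr i => (2 : ℝ) • LinearMap.proj (Sum.inr i) +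
      ∑ j : Fin 14, (g j i : ℝ) • LinearMap.proj (R := ℝ) (φ := fun _ : I => ℝ) (Sum.inl j)

lemma mu_inl (j : Fin 14) (x : I → ℝ) : mu (Sum.inl j) x = x (Sum.inl j) := rfl

lemma mu_inr (i : Fin 112) (x : I → ℝ) :
    mu (Sum.inr i) x = 2 * x (Sum.inr i) + ∑ j : Fin 14, (g j i : ℝ) * x (Sum.inl j) := by
  simp [mu, LinearMap.sum_apply]

lemma mu_vert (l : I) (o : Option I) : mu l (cast (vert o)) = if o = some l then 2 else 0 := by
  rcases o with _ | j | i <;> rcases l with j' | i' <;>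
    simp [mu_inl, mu_inr, cast, vert]
  · ring

lemma recon (x : I → ℝ) : ∑ l : I, mu l x • cast (vert (some l)) = (2 : ℝ) • x := by
  ext r
  rw [Finset.sum_apply, Fintype.sum_sum_type]
  rcases r with j | i <;> simp [mu_inl, mu_inr, cast, vert]
  · ring
  · simp only [mul_comm]; ring

lemma mem_poly (o : Option I) : cast (vert o) ∈ poly V :=
  subset_convexHull _ _ ⟨_, by simp [V], rfl⟩

lemma le_of_V (f : (I → ℝ) →ₗ[ℝ] ℝ) (m : ℝ) (h : ∀ o, f (cast (vert o)) ≤ m) :
    ∀ x ∈ poly V, f x ≤ m := by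
  refine convexHull_min ?_ (convex_halfSpace_le f.isLinear m)
  rintro _ ⟨w, hw, rfl⟩
  obtain ⟨o, -, rfl⟩ := mem_image.1 hw
  exact h o

lemma lt_of_interior {S : Set (I → ℝ)} (f : (I → ℝ) →ₗ[ℝ] ℝ) (m : ℝ) (y : I → ℝ) (hy : 0 < f y)
    (h : ∀ x ∈ S, f x ≤ m) {x : I → ℝ} (hx : x ∈ interior S) : f x < m := by
  have hc : ContinuousAt (fun t : ℝ => x + t • y) 0 := by fun_prop
  have h1 : ∀ᶠ t in nhds (0 : ℝ), x + t • y ∈ S := by
    apply hc.eventually_mem
    simpa using mem_interior_iff_mem_nhds.1 hx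
  obtain ⟨t, ht, h2⟩ := ((h1.filter_mono nhdsWithin_le_nhds).and
    (self_mem_nhdsWithin (s := Set.Ioi (0 : ℝ)))).exists
  have := h _ ht
  rw [map_add, map_smul, smul_eq_mul] at this
  have := mul_pos (show 0 < t from h2) hy
  linarith

def zl : List ℤ := [1, 1, 2, 2, 2, 2, 2, 2, 2, 2, 2, 2, 2, 2]

def zr : List ℤ :=
  [-4, -4, -5, -5, -5, -4, -9, -5, -5, -7, -4, -4, -5, -6, -6, -5, -5, -4, -5, -5,
   -5, -6, -6, -7, -6, -7, -7, -4, -8, -4, -10, -4, -6, -7, -9, -8, -7, -5, -6, -6,
   -7, -5, -4, -7, -8, -5, -7, -4, -5, -5, -4, -6, -6, -7, -7, -6, -4, -5, -6, -5,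
   -9, -6, -8, -5, -6, -5, -8, -4, -4, -4, -3, -4, -5, -5, -5, -8, -6, -7, -6, -8,
   -4, -7, -4, -9, -10, -4, -8, -9, -8, -4, -8, -7, -6, -8, -5, -8, -9, -5, -8, -8,
   -6, -8, -3, -7, -5, -7, -7, -7, -5, -5, -7, -6]

def z0 : I → ℤ := Sum.elim (fun j => zl.getD j 0) (fun i => zr.getD i 0)

def imu (z : I → ℤ) : I → ℤ
  | Sum.inl j => z (Sum.inl j)
  | Sum.inr i => 2 * z (Sum.inr i) + ∑ j : Fin 14, (g j i : ℤ) * z (Sum.inl j)

lemma mu_cast (z : I → ℤ) (l : I) : mu l (cast z) = imu z l := by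
  rcases l with j | i <;> simp [mu_inl, mu_inr, imu, cast]

lemma inner {k : ℝ} (hk : 0 < k) {x : I → ℝ} (h1 : ∀ l, 0 < mu l x) (h2 : ∑ l, mu l x < 2 * k) :
    x ∈ interior (k • poly V) := by
  have hc : ∀ l, Continuous (mu l) := fun l => (mu l).continuous_of_finiteDimensional
  refine mem_interior.2 ⟨{x | ∀ l, 0 < mu l x} ∩ {x | ∑ l, mu l x < 2 * k}, ?_, ?_, h1, h2⟩
  · rintro y ⟨a1, a2⟩
    have hm := (convex_convexHull ℝ (cast '' (V : Set (I → ℤ)))).sum_mem (t := univ)
      (w := fun o : Option I => o.elim (1 - ∑ l, mu l y / (2 * k)) (fun l => mu l y / (2 * k)))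
      (z := fun o => cast (vert o)) ?_ ?_ (fun o _ => mem_poly o)
    · refine ⟨_, hm, ?_⟩
      rw [Fintype.sum_option]
      simp only [Option.elim]
      have e0 : cast (vert none) = 0 := by ext; simp [cast, vert]
      have e1 : ∀ l, (mu l y / (2 * k)) • cast (vert (some l)) =
          (2 * k)⁻¹ • (mu l y • cast (vert (some l))) := fun l => by
        rw [smul_smul, div_eq_inv_mul]
      rw [e0, smul_zero, zero_add, sum_congr rfl (fun l _ => e1 l), ← smul_sum, recon, smul_smul,
        smul_smul, show k * (2 * k)⁻¹ * 2 = 1 by field_simp, one_smul]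
    · rintro (_ | l) _
      · simp only [Option.elim]
        rw [← sum_div, sub_nonneg, div_le_one (by positivity)]
        exact le_of_lt a2
      · exact div_nonneg (a1 l).le (by positivity)
    · rw [Fintype.sum_option]; simp
  · refine IsOpen.inter ?_ (isOpen_lt (continuous_finsetSum _ fun l _ => hc l) continuous_const)
    rw [Set.ofPred_forall]
    exact isOpen_iInter_of_finite fun l => isOpen_lt continuous_const (hc l)

lemma gid : ∀ j j' : Fin 14, g j (112 + j') = if j = j' then 1 else 0 := by decide +kernel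

lemma lower (k : ℕ) (z : I → ℤ) (hz : cast z ∈ interior ((k : ℝ) • poly V)) : 91 ≤ k := by
  have h1 : ∀ l, 0 < imu z l := by
    intro l
    have := lt_of_interior (-mu l) 0 (-cast (vert (some l))) (by simp [mu_vert]) (by
      rintro _ ⟨x, hx, rfl⟩
      have := le_of_V (-mu l) 0 (fun o => by
        simp only [LinearMap.neg_apply, mu_vert]; split_ifs <;> norm_num) x hx
      rw [map_smul]
      exact mul_nonpos_of_nonneg_of_nonpos (Nat.cast_nonneg k) this) hz
    rw [LinearMap.neg_apply, mu_cast] at this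
    exact_mod_cast neg_lt_zero.1 this
  have hs : ∀ o, (∑ l, mu l) (cast (vert o)) = if o = none then 0 else 2 := by
    intro o
    rw [LinearMap.sum_apply]
    rcases o with _ | l <;> simp [mu_vert]
  have h2 : ∑ l, imu z l < 2 * k := by
    have := lt_of_interior (∑ l, mu l) (k * 2) (cast (vert (some (Sum.inl 0))))
      (by rw [hs]; simp) (by
      rintro _ ⟨x, hx, rfl⟩
      have := le_of_V (∑ l, mu l) 2 (fun o => by rw [hs]; split_ifs <;> norm_num) x hx
      rw [map_smul]
      exact mul_le_mul_of_nonneg_left this (Nat.cast_nonneg k)) hz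
    rw [LinearMap.sum_apply] at this
    simp only [mu_cast] at this
    rw [mul_comm] at this
    exact_mod_cast this
  obtain ⟨w, hw, hb⟩ := chk_spec rows 0 chk_ok
    (fun j => if h : j < 14 then z (Sum.inl ⟨j, h⟩) else 0)
  have hb' : ∀ i, ((bit w i : ℤ) - ∑ j : Fin 14, (g j i : ℤ) * z (Sum.inl j)) % 2 = 0 := by
    intro i
    have := hb i
    rw [show rows.length = 14 from rfl, Finset.sum_range] at this
    simpa [bit, g] using this
  have h3 : ∀ l, 2 - (bit w (pos (some l)) : ℤ) ≤ imu z l := by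
    intro l
    have a1 := h1 l
    have a2 := hb' (pos (some l))
    have a3 : bit w (pos (some l)) ≤ 1 := by unfold bit; split_ifs <;> omega
    rcases l with j | i
    · simp only [pos, gid, imu] at *
      simp only [Nat.cast_ite, Nat.cast_one, Nat.cast_zero, ite_mul, one_mul, zero_mul,
        sum_ite_eq', mem_univ, if_true] at a2
      omega
    · simp only [pos, imu] at *
      omega
  have h4 := sum_le_sum (s := univ) fun l _ => h3 l
  rw [pc_eq, show 126 = 112 + 14 from rfl, sum_range_add, Finset.sum_range,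
    Finset.sum_range] at hw
  rw [sum_sub_distrib, Fintype.sum_sum_type (fun l => (bit w (pos (some l)) : ℤ))] at h4
  simp only [pos, sum_const, card_univ, Fintype.card_sum, Fintype.card_fin] at h4
  have hw' : ((∑ i : Fin 112, bit w i + ∑ j : Fin 14, bit w (112 + j) : ℕ) : ℤ) ≤ 72 := by
    exact_mod_cast hw
  push_cast at hw'
  simp only [nsmul_eq_mul] at h4
  omega

lemma geven : ∀ j : Fin 14, (1 + ∑ i : Fin 112, g j i + g j 126) % 2 = 0 := by decide +kernel

lemma pos_inj : Function.Injective pos := by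
  rintro (_ | j | i) (_ | j' | i') h <;> simp only [pos] at h <;>
    first | rfl | omega | (congr; ext; omega)

lemma five (a : I → ℤ) (t : ℤ) (f : Option I → ℤ) (hf : ∀ o, f o = ∑ i, a i * vert o i + t)
    (h01 : ∀ o, f o = 0 ∨ f o = 1) (hne : ∃ o, f o = 1) : 5 ≤ ∑ o, f o := by
  classical
  have e1 : ∀ F : Option I → ℤ, ∑ o, F o * f o = ∑ o ∈ univ.filter (fun o => f o = 1), F o := by
    intro F
    rw [sum_filter]
    apply sum_congr rfl
    intro o _
    rcases h01 o with h | h <;> simp [h]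
  have h5 := dual ((univ.filter (fun o => f o = 1)).image pos) ?_ ?_ ?_
  · rw [card_image_of_injective _ pos_inj] at h5
    have := e1 (fun _ => 1)
    simp only [one_mul, sum_const, nsmul_eq_mul, mul_one] at this
    rw [this]
    exact_mod_cast h5
  · intro x hx
    obtain ⟨o, -, rfl⟩ := mem_image.1 hx
    rcases o with _ | j | i <;> simp only [pos] <;> omega
  · obtain ⟨o, ho⟩ := hne
    exact ⟨pos o, mem_image_of_mem _ (mem_filter.2 ⟨mem_univ _, ho⟩)⟩
  · intro j hj
    rw [sum_image (fun _ _ _ _ h => pos_inj h)]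
    have := e1 (fun o => (g j (pos o) : ℤ))
    rw [Fintype.sum_option, Fintype.sum_sum_type] at this
    have hg := gid ⟨j, hj⟩
    have he := geven ⟨j, hj⟩
    simp only at hg he
    have v0 : f none = t := by simp [hf, vert]
    have v1 : ∀ i, f (some (Sum.inr i)) = a (Sum.inr i) + t := fun i => by
      simp [hf, vert, Fintype.sum_sum_type]
    have v2 : f (some (Sum.inl ⟨j, hj⟩)) =
        2 * a (Sum.inl ⟨j, hj⟩) - ∑ i : Fin 112, (g j i : ℤ) * a (Sum.inr i) + t := by
      simp [hf, vert, Fintype.sum_sum_type, mul_comm, sub_eq_add_neg]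
    simp only [pos, hg, v0, v1, Nat.cast_ite, Nat.cast_one, Nat.cast_zero, ite_mul, one_mul,
      zero_mul, sum_ite_eq, mem_univ, if_true, v2, mul_add, sum_add_distrib, ← sum_mul] at this
    have he' : ∃ u : ℤ, 1 + ∑ i : Fin 112, (g j i : ℤ) + g j 126 = 2 * u := by
      refine ⟨((1 + ∑ i : Fin 112, g j i + g j 126) / 2 : ℕ), ?_⟩
      have : 1 + ∑ i : Fin 112, g j i + g j 126 = 2 * ((1 + ∑ i : Fin 112, g j i + g j 126) / 2) := by
        omega
      exact_mod_cast this
    obtain ⟨u, hu⟩ := he'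
    have fin : ((∑ o ∈ univ.filter (fun o => f o = 1), g j (pos o) : ℕ) : ℤ) =
        2 * (a (Sum.inl ⟨j, hj⟩) + u * t) := by
      push_cast
      refine this.symm.trans ?_
      linear_combination t * hu
    omega

theorem result : ∃ (ι : Type) (_ : Fintype ι) (_ : DecidableEq ι) (d s : ℕ)
    (W : Finset (ι → ℤ)), Fintype.card ι = d ∧ (interior (poly W)).Nonempty ∧
    HasDegree (poly W) s ∧ 1 ≤ s ∧ 17 * s - 4 < 6 * d ∧
    ∀ k, IsCayley (poly W) k → k + 1 < d + 1 - (17 * s - 4) / 6 := by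
  have hz : cast z0 ∈ interior (((91 : ℕ) : ℝ) • poly V) := by
    apply inner (by norm_num)
    · intro l
      rw [mu_cast]
      have : ∀ l, 0 < imu z0 l := by decide +kernel
      exact_mod_cast this l
    · simp only [mu_cast]
      have : ∑ l, imu z0 l < 182 := by decide +kernel
      have h2 : ((∑ l, imu z0 l : ℤ) : ℝ) < ((182 : ℤ) : ℝ) := by exact_mod_cast this
      push_cast at h2 ⊢
      linarith
  refine ⟨I, inferInstance, inferInstance, 126, 36, V, by simp, ?_, ⟨by simp, ?_, ?_⟩,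
    by norm_num, by norm_num, ?_⟩
  · rw [interior_smul₀ (by norm_num)] at hz
    obtain ⟨x, hx, -⟩ := hz
    exact ⟨x, hx⟩
  · simp only [Fintype.card_sum, Fintype.card_fin]
    exact ⟨by norm_num, z0, hz⟩
  · rintro k ⟨-, z, hz⟩
    simp only [Fintype.card_sum, Fintype.card_fin]
    exact lower k z hz
  rintro k ⟨m, Q, M, N, t, hQ, -, -, hP⟩
  let a : Fin (k + 1) → I → ℤ :=
    Fin.cases (fun i => -∑ s, M (Sum.inr s) i) (fun s i => M (Sum.inr s) i)
  let c : Fin (k + 1) → ℤ := Fin.cases (1 - ∑ s, t (Sum.inr s)) (fun s => t (Sum.inr s))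
  let L : Fin (k + 1) → (Fin m ⊕ Fin k → ℝ) → ℝ :=
    Fin.cases (fun y => 1 - ∑ s, y (Sum.inr s)) (fun s y => y (Sum.inr s))
  let f : Fin (k + 1) → Option I → ℤ := fun s o => ∑ i, a s i * vert o i + c s
  have hL : ∀ s (x : I → ℝ), L s (fun r => ∑ i, (M r i : ℝ) * x i + t r) =
      ∑ i, (a s i : ℝ) * x i + c s := by
    intro s x
    refine Fin.cases ?_ (fun s => ?_) s
    · simp only [L, a, c, Fin.cases_zero, sum_add_distrib]
      push_cast
      simp only [neg_mul, sum_neg_distrib, sum_mul]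
      rw [sum_comm]; ring
    · simp only [L, a, c, Fin.cases_succ]
  have hcor : ∀ s j (p : Fin m → ℝ), L s (Sum.elim p (corner k j)) = if j = s then 1 else 0 := by
    intro s j p
    refine Fin.cases ?_ (fun s => ?_) s
    · refine Fin.cases ?_ (fun j => ?_) j <;> simp [L, corner, (Fin.succ_ne_zero _).symm]
    · simp [L, corner]
  have hpos : ∀ s, ∀ y ∈ cayley Q, 0 ≤ L s y := by
    intro s
    refine convexHull_min ?_ ?_
    · intro y hy
      simp only [Set.mem_iUnion] at hy
      obtain ⟨j, p, -, rfl⟩ := hy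
      change 0 ≤ L s _
      rw [hcor]; split_ifs <;> norm_num
    · intro x hx y hy u v hu hv huv
      have e : L s (u • x + v • y) = u * L s x + v * L s y := by
        refine Fin.cases ?_ (fun s => ?_) s
        · simp only [L, Fin.cases_zero, Pi.add_apply, Pi.smul_apply, smul_eq_mul, sum_add_distrib,
            ← mul_sum]
          linear_combination -huv
        · simp [L]
      change 0 ≤ L s _
      rw [e]
      exact add_nonneg (mul_nonneg hu hx) (mul_nonneg hv hy)
  have hf0 : ∀ s o, 0 ≤ f s o := by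
    intro s o
    have := hpos s _ (hP ▸ Set.mem_image_of_mem _ (mem_poly o))
    rw [hL] at this
    simp only [cast] at this
    exact_mod_cast this
  have hf1 : ∀ o, ∑ s, f s o = 1 := by
    intro o
    simp only [f, a, c, Fin.sum_univ_succ, Fin.cases_zero, Fin.cases_succ, sum_add_distrib,
      neg_mul, sum_neg_distrib, sum_mul]
    rw [sum_comm]; ring
  have h01 : ∀ s o, f s o = 0 ∨ f s o = 1 := by
    intro s o
    have := single_le_sum (f := fun s => f s o) (fun s _ => hf0 s o) (mem_univ s)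
    have := hf0 s o
    have := hf1 o
    omega
  have hhit : ∀ s, ∃ o, f s o = 1 := by
    intro s
    by_contra hno
    push Not at hno
    obtain ⟨q, hq⟩ := hQ s
    have hm : Sum.elim (cast q) (corner k s) ∈ cayley Q := subset_convexHull _ _
      (Set.mem_iUnion.2 ⟨s, _, subset_convexHull _ _ ⟨q, hq, rfl⟩, rfl⟩)
    rw [← hP] at hm
    obtain ⟨x, hx, e⟩ := hm
    have h1 := hL s x
    rw [show (fun r => ∑ i, (M r i : ℝ) * x i + t r) = _ from e, hcor, if_pos rfl] at h1
    have h2 := le_of_V (∑ i, (a s i : ℝ) • LinearMap.proj (R := ℝ) (φ := fun _ : I => ℝ) i)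
      (-c s) (fun o => by
        have h3 : f s o = 0 := (h01 s o).resolve_right (hno o)
        have h4 : ((f s o : ℤ) : ℝ) = 0 := by exact_mod_cast h3
        simp only [f] at h4
        push_cast at h4
        simp only [LinearMap.sum_apply, LinearMap.smul_apply, LinearMap.proj_apply, smul_eq_mul,
          cast]
        linarith) x hx
    simp only [LinearMap.sum_apply, LinearMap.smul_apply, LinearMap.proj_apply, smul_eq_mul] at h2
    linarith
  have h5 := sum_le_sum (s := univ) fun s _ => five (a s) (c s) (f s) (fun _ => rfl) (h01 s) (hhit s)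
  rw [sum_comm] at h5
  simp only [hf1, sum_const, card_univ, Fintype.card_option, Fintype.card_sum, Fintype.card_fin,
    nsmul_eq_mul] at h5
  omega

end Pool.Agent.Results.MP_c7d842_co.Code
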